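import Pool.Agent.TH399.CC.Main
import Pool.Agent.H825R2.EW.PFinal

set_option autoImplicit false
set_option linter.unusedSectionVars false

/-!
Circuit covers of weightings which are close to a sum of spanning closed trails.
-/

namespace Pool.Agent.J4.H48.CC

open Finset
open Pool.Agent.Helper879.ECD (F2 IsFlow f2_add_self f2_cases)
open Pool.Agent.H126R2.CDC (MGraph isFl_iff)
open Pool.Agent.H126R2.NC (InIntCone)
open Pool.Agent.H825R2.EW (circuits_of_flow)
open Pool.Agent.TH399.CC (exists_flow_on isFlow_add intCone_sum intCone_add)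

variable {V E : Type} [Fintype V] [DecidableEq V] [Fintype E] [DecidableEq E]

/-- The edge `e` leaves the vertex set `X`: it has an end in `X` and an end outside `X`. -/
def Leaves (G : MGraph V E) (X : Finset V) (e : E) : Prop :=
  (∃ x ∈ G.ends e, x ∈ X) ∧ ∃ x ∈ G.ends e, x ∉ X

/-- The edge set `Z` is a spanning closed trail of `G` (of each component of `G`): every vertex has
even degree in `Z` (loops count twice), and every vertex set left by an edge of `G` is left by an
edge of `Z`. -/
def Trail (G : MGraph V E) (Z : Finset E) : Prop :=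
  (∀ v, Even (G.deg Z v)) ∧
    ∀ X : Finset V, (∃ e, Leaves G X e) → ∃ e ∈ Z, Leaves G X e

lemma leaves_iff (G : MGraph V E) (v : E × Bool → V)
    (hv : ∀ e, G.ends e = s(v (e, false), v (e, true))) (X : Finset V) (e : E) :
    Leaves G X e ↔ ¬ (v (e, false) ∈ X ↔ v (e, true) ∈ X) := by
  unfold Leaves
  rw [hv e]
  simp only [Sym2.mem_iff, exists_eq_or_imp, exists_eq_left]
  tauto

lemma one_pair (G : MGraph V E) (Z F : Finset E) (hZ : Trail G Z) :
    InIntCone G (fun e => if e ∈ Z then 1 else if e ∈ F then 2 else 0) := by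
  classical
  obtain ⟨v, hv⟩ := G.exists_halves
  obtain ⟨φ, hφ, hφF⟩ := exists_flow_on (fun e => v (e, false)) (fun e => v (e, true)) (univ \ Z)
    (F \ Z) (by
      intro c hc
      apply Finset.sum_eq_zero
      intro e _
      by_contra hne
      have hlv : ∀ f, c (v (f, false)) + c (v (f, true)) ≠ 0 ↔
          Leaves G (univ.filter (fun w => c w = 1)) f := by
        intro f
        rw [leaves_iff G v hv]
        simp only [Finset.mem_filter, Finset.mem_univ, true_and]
        have h2 : ∀ x y : ZMod 2, x + y ≠ 0 ↔ ¬ (x = 1 ↔ y = 1) := by decide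
        exact h2 _ _
      obtain ⟨f, hf, hf'⟩ := hZ.2 _ ⟨e, (hlv e).1 hne⟩
      exact (hlv f).2 hf' (hc f (by simp [hf])))
  have hψ : IsFlow (fun e => v (e, false)) (fun e => v (e, true))
      (fun e => if e ∈ Z then (1 : F2) else 0) := by
    rw [← isFl_iff, ← G.isEven_iff v hv]
    exact hZ.1
  obtain ⟨F1, h1, h1'⟩ := circuits_of_flow G v hv φ hφ
  obtain ⟨F2, h2, h2'⟩ := circuits_of_flow G v hv _ (isFlow_add hφ hψ)
  refine ⟨F1 + F2, ?_, ?_⟩
  · intro C hC
    rcases Multiset.mem_add.1 hC with h | h
    · exact h1 C h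
    · exact h2 C h
  · intro e
    rw [Multiset.countP_add, h1', h2']
    by_cases he : e ∈ Z
    · simp only [if_pos he]
      have h3 : ∀ x : ZMod 2, (if x = 0 then 0 else 1) + (if x + 1 = 0 then 0 else 1) = 1 := by
        decide
      exact h3 _
    · simp only [if_neg he, add_zero]
      have h3 := hφF e (by simp [he])
      by_cases hf : e ∈ F
      · rw [if_pos (by simp [hf, he])] at h3
        rw [h3]
        simp [hf]
      · rw [if_neg (by simp [hf])] at h3
        rw [h3]
        simp [hf]

/-- The number of the trails through an edge. -/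
def mult {ι : Type} [Fintype ι] (Z : ι → Finset E) (e : E) : ℕ :=
  (univ.filter (fun i => e ∈ Z i)).card

/-- Weightings near a sum of spanning closed trails. -/
theorem trails (G : MGraph V E) {ι : Type} [Fintype ι] (Z : ι → Finset E)
    (hZ : ∀ i, Trail G (Z i)) (p : E → ℕ) (h1 : ∀ e, mult Z e ≤ p e)
    (h2 : ∀ e, p e + mult Z e ≤ 2 * Fintype.card ι) (h3 : ∀ e, Even (p e + mult Z e)) :
    InIntCone G p := by
  classical
  have hT : ∀ e, ∃ T ⊆ univ.filter (fun i => e ∉ Z i), T.card = (p e - mult Z e) / 2 := by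
    intro e
    apply Finset.exists_subset_card_eq
    have h4 : (univ.filter (fun i => e ∈ Z i)).card + (univ.filter (fun i => ¬ e ∈ Z i)).card =
        (univ : Finset ι).card := Finset.card_filter_add_card_filter_not _
    rw [Finset.card_univ] at h4
    have h5 := h2 e
    unfold mult at h5 ⊢
    omega
  choose T hTs hTc using hT
  have h4 := intCone_sum G univ
    (fun i => fun e => if e ∈ Z i then 1 else if e ∈ univ.filter (fun e => i ∈ T e) then 2 else 0)
    (fun i _ => one_pair G (Z i) (univ.filter (fun e => i ∈ T e)) (hZ i))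
  have h5 : (fun e => ∑ i, if e ∈ Z i then 1 else
      if e ∈ univ.filter (fun e => i ∈ T e) then 2 else 0) = p := by
    funext e
    have h6 : ∀ i ∈ (univ : Finset ι), (if e ∈ Z i then 1 else
        if e ∈ univ.filter (fun e => i ∈ T e) then 2 else 0) =
        (if e ∈ Z i then 1 else 0) + 2 * (if i ∈ T e then 1 else 0) := by
      intro i _
      simp only [Finset.mem_filter, Finset.mem_univ, true_and]
      by_cases h : e ∈ Z i
      · have h7 : i ∉ T e := by
          intro h8
          have h9 := hTs e h8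
          rw [Finset.mem_filter] at h9
          exact h9.2 h
        simp [h, h7]
      · by_cases h7 : i ∈ T e <;> simp [h, h7]
    rw [Finset.sum_congr rfl h6, Finset.sum_add_distrib, ← Finset.mul_sum, ← Finset.card_filter,
      ← Finset.card_filter]
    have h7 : univ.filter (fun i => i ∈ T e) = T e := by ext i; simp
    rw [h7, hTc]
    have h8 := h1 e
    obtain ⟨k, hk⟩ := h3 e
    unfold mult at *
    omega
  rw [← h5]
  exact h4

/-- Multiples of edge-disjoint spanning closed trails. -/
theorem disjoint_trails (G : MGraph V E) {k : ℕ} (Z : Fin k → Finset E)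
    (hZ : ∀ i, Trail G (Z i)) (hd : ∀ i j, i ≠ j → Disjoint (Z i) (Z j)) (m : Fin k → ℕ)
    (hm : ∀ i, Even (m i)) (p : E → ℕ) (hev : ∀ e, Even (p e))
    (h1 : ∀ i, ∀ e ∈ Z i, m i ≤ p e ∧ p e + m i ≤ 2 * ∑ j, m j)
    (h2 : ∀ e, p e ≤ 2 * ∑ j, m j) : InIntCone G p := by
  classical
  have hcard : ∀ e, mult (fun x : (Σ i : Fin k, Fin (m i)) => Z x.1) e =
      ∑ i, if e ∈ Z i then m i else 0 := by
    intro e
    unfold mult
    rw [Finset.card_filter, Fintype.sum_sigma]
    apply Finset.sum_congr rfl
    intro i _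
    by_cases h : e ∈ Z i <;> simp [h]
  have hval : ∀ e, (∃ i, e ∈ Z i ∧ mult (fun x : (Σ i : Fin k, Fin (m i)) => Z x.1) e = m i) ∨
      mult (fun x : (Σ i : Fin k, Fin (m i)) => Z x.1) e = 0 := by
    intro e
    rw [hcard]
    by_cases h : ∃ i, e ∈ Z i
    · obtain ⟨i, hi⟩ := h
      left
      refine ⟨i, hi, ?_⟩
      rw [Finset.sum_eq_single i]
      · rw [if_pos hi]
      · intro j _ hj
        rw [if_neg]
        intro h'
        exact (Finset.disjoint_left.1 (hd j i hj) h') hi
      · intro h'
        exact absurd (Finset.mem_univ i) h'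
    · right
      apply Finset.sum_eq_zero
      intro i _
      rw [if_neg (fun h' => h ⟨i, h'⟩)]
  have hsum : Fintype.card (Σ i : Fin k, Fin (m i)) = ∑ j, m j := by
    rw [Fintype.card_sigma]
    simp
  refine trails G (fun x : (Σ i : Fin k, Fin (m i)) => Z x.1) (fun x => hZ x.1) p ?_ ?_ ?_
  · intro e
    rcases hval e with ⟨i, hi, h⟩ | h
    · rw [h]; exact (h1 i e hi).1
    · rw [h]; exact Nat.zero_le _
  · intro e
    rw [hsum]
    rcases hval e with ⟨i, hi, h⟩ | h
    · rw [h]; exact (h1 i e hi).2
    · rw [h]; exact h2 e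
  · intro e
    rcases hval e with ⟨i, hi, h⟩ | h
    · rw [h]; exact (hev e).add (hm i)
    · rw [h]; exact (hev e).add Even.zero

lemma zero_cover (G : MGraph V E) (p : E → ℕ) (h : ∀ e, p e = 0) : InIntCone G p :=
  ⟨0, by simp, fun e => by simp [h e]⟩

/-- Weights within a factor of `2 k - 1`. -/
theorem ratio_trails (G : MGraph V E) {k : ℕ} (Z : Fin k → Finset E)
    (hZ : ∀ i, Trail G (Z i)) (hd : ∀ i j, i ≠ j → Disjoint (Z i) (Z j))
    (p : E → ℕ) (hev : ∀ e, Even (p e)) (hr : ∀ e f, p e ≤ (2 * k - 1) * p f) :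
    InIntCone G p := by
  classical
  rcases Nat.eq_zero_or_pos k with hk | hk
  · subst hk
    exact zero_cover G p (fun e => Nat.le_zero.1 (by simpa using hr e e))
  by_cases hE : Nonempty E
  · obtain ⟨f, hf⟩ := Finite.exists_min p
    have hs : ∑ _j : Fin k, p f = k * p f := by simp
    have hkk : 2 * k - 1 + 1 = 2 * k := by omega
    have h5 : (2 * k - 1) * p f + p f = 2 * (k * p f) := by
      calc (2 * k - 1) * p f + p f = (2 * k - 1 + 1) * p f := by ring
        _ = 2 * (k * p f) := by rw [hkk]; ring
    refine disjoint_trails G Z hZ hd (fun _ => p f) (fun _ => hev f) p hev ?_ ?_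
    · intro i e _
      refine ⟨hf e, ?_⟩
      rw [hs]
      have h4 := hr e f
      omega
    · intro e
      rw [hs]
      have h4 := hr e f
      omega
  · exact zero_cover G p (fun e => absurd ⟨e⟩ hE)

end Pool.Agent.J4.H48.CC
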