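import Pool.Agent.J4.H48.CC.Trails

set_option autoImplicit false
set_option linter.unusedSectionVars false

/-!
Complete graphs: a double cover of the edges of the complete graph by `n - 1` Hamilton cycles and
the circuit covers it gives.
-/

namespace Pool.Agent.J4.H48.CC

open Finset
open Pool.Agent.H126R2.CDC (MGraph)
open Pool.Agent.H126R2.NC (InIntCone)

/-- The label of a pair of vertices. -/
def sm {N : ℕ} : Option (ZMod N) → Option (ZMod N) → ZMod N
  | some x, some y => x + y
  | some x, none => x + x
  | none, some x => x + x
  | none, none => 0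

lemma sm_comm {N : ℕ} (a b : Option (ZMod N)) : sm a b = sm b a := by
  cases a <;> cases b <;> simp [sm, add_comm]

section

variable {N : ℕ} [NeZero N]

lemma even_self (s : ZMod N) :
    Even ((univ.filter (fun x : ZMod N => ¬ x + x = s)).card) := by
  have h1 : ∑ x : ZMod N, (if ¬ x + x = s then (1 : ZMod 2) else 0) = 0 := by
    apply Finset.sum_involution (fun x _ => s - x)
    · intro x _
      have h2 : (s - x + (s - x) = s) ↔ (x + x = s) := by
        constructor
        · intro h; linear_combination -h
        · intro h; linear_combination -h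
      by_cases h : x + x = s
      · simp [h2, h]
      · simp only [h2, h, not_false_eq_true, if_true]
        decide
    · intro x _ hx h
      apply hx
      have h2 : x + x = s := by linear_combination -h
      simp [h2]
    · intro x _; exact Finset.mem_univ _
    · intro x _; ring
  rw [← Nat.cast_one, ← Nat.cast_zero] at h1
  rw [even_iff_two_dvd, ← ZMod.natCast_eq_zero_iff, Finset.card_filter]
  push_cast at h1 ⊢
  exact h1

lemma even_two (hN : 2 ≤ N) (m : ZMod N) :
    Even ((univ.filter (fun x : ZMod N => x + x = m ∨ x + x = m + 1)).card) := by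
  classical
  have h1 := even_self m
  have h2 := even_self (m + 1)
  have hne : m ≠ m + 1 := by
    intro h
    have : Fact (1 < N) := ⟨hN⟩
    have : (1 : ZMod N) = 0 := by linear_combination -h
    exact one_ne_zero this
  have h3 : (univ.filter (fun x : ZMod N => x + x = m)).card +
      (univ.filter (fun x : ZMod N => ¬ x + x = m)).card = (univ : Finset (ZMod N)).card :=
    Finset.card_filter_add_card_filter_not _
  have h4 : (univ.filter (fun x : ZMod N => x + x = m + 1)).card +
      (univ.filter (fun x : ZMod N => ¬ x + x = m + 1)).card = (univ : Finset (ZMod N)).card :=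
    Finset.card_filter_add_card_filter_not _
  have h5 : (univ.filter (fun x : ZMod N => x + x = m ∨ x + x = m + 1)).card =
      (univ.filter (fun x : ZMod N => x + x = m)).card +
      (univ.filter (fun x : ZMod N => x + x = m + 1)).card := by
    rw [Finset.filter_or, Finset.card_union_of_disjoint]
    rw [Finset.disjoint_left]
    intro x hx hx'
    rw [Finset.mem_filter] at hx hx'
    exact hne (hx.2.symm.trans hx'.2)
  rw [h5]
  rw [Nat.even_iff] at *
  omega

lemma deg_opt (hN : 2 ≤ N) (m : ZMod N) (w : Option (ZMod N)) :
    Even ((univ.filter (fun o : Option (ZMod N) =>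
      o ≠ w ∧ (sm o w = m ∨ sm o w = m + 1))).card) := by
  classical
  have hne : m ≠ m + 1 := by
    intro h
    have : Fact (1 < N) := ⟨hN⟩
    have : (1 : ZMod N) = 0 := by linear_combination -h
    exact one_ne_zero this
  cases w with
  | none =>
    have h1 : univ.filter (fun o : Option (ZMod N) =>
        o ≠ none ∧ (sm o none = m ∨ sm o none = m + 1)) =
        (univ.filter (fun x : ZMod N => x + x = m ∨ x + x = m + 1)).map
          Function.Embedding.some := by
      ext o
      cases o with
      | none => simp
      | some x =>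
        have h2 : sm (some x) none = x + x := rfl
        simp only [Finset.mem_filter, Finset.mem_univ, true_and, h2, Finset.mem_map,
          Function.Embedding.some_apply, Option.some.injEq, exists_eq_right, ne_eq, reduceCtorEq,
          not_false_eq_true]
    rw [h1, Finset.card_map]
    exact even_two hN m
  | some x =>
    let r : ZMod N → Option (ZMod N) := fun s => if s - x = x then none else some (s - x)
    have hr : ∀ (o : Option (ZMod N)) (s : ZMod N), (o ≠ some x ∧ sm o (some x) = s) ↔ o = r s := by
      intro o s
      by_cases h : s - x = x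
      · simp only [r, if_pos h]
        cases o with
        | none =>
          simp only [sm, ne_eq, reduceCtorEq, not_false_eq_true, true_and, iff_true]
          linear_combination -h
        | some y =>
          simp only [sm, ne_eq, Option.some.injEq, reduceCtorEq, iff_false, not_and]
          intro h1 h2
          apply h1
          linear_combination h2 + h
      · simp only [r, if_neg h]
        cases o with
        | none =>
          simp only [sm, ne_eq, reduceCtorEq, not_false_eq_true, true_and, iff_false]
          intro h1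
          apply h
          linear_combination -h1
        | some y =>
          simp only [sm, ne_eq, Option.some.injEq]
          constructor
          · rintro ⟨h1, h2⟩
            linear_combination h2
          · intro h1
            refine ⟨?_, by linear_combination h1⟩
            intro h2
            apply h
            rw [← h1, h2]
    have h1 : univ.filter (fun o : Option (ZMod N) =>
        o ≠ some x ∧ (sm o (some x) = m ∨ sm o (some x) = m + 1)) = {r m, r (m + 1)} := by
      ext o
      simp only [Finset.mem_filter, Finset.mem_univ, true_and, Finset.mem_insert,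
        Finset.mem_singleton, ← hr]
      tauto
    have h2 : r m ≠ r (m + 1) := by
      intro h
      have h3 := (hr (r m) m).2 rfl
      have h4 := (hr (r m) (m + 1)).2 h
      exact hne (h3.2.symm.trans h4.2)
    rw [h1, Finset.card_pair h2]
    exact ⟨1, rfl⟩

/-- a set closed under the relation is everything or nothing -/
lemma conn_opt (m : ZMod N) (c : Option (ZMod N) → Prop)
    (h : ∀ a b, a ≠ b → (sm a b = m ∨ sm a b = m + 1) → (c a ↔ c b)) :
    ∀ a b, c a ↔ c b := by
  have h1 : ∀ x : ZMod N, c (some x) ↔ c (some (x + 1)) := by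
    intro x
    have h2 : c (some x) ↔ c (some (m - x)) := by
      by_cases he : x = m - x
      · rw [← he]
      · exact h _ _ (by simpa using he) (Or.inl (by simp [sm]))
    have h3 : c (some (m - x)) ↔ c (some (x + 1)) := by
      by_cases he : m - x = x + 1
      · rw [← he]
      · exact h _ _ (by simpa using he) (Or.inr (by simp only [sm]; ring))
    exact h2.trans h3
  have h4 : ∀ n : ℕ, c (some ((n : ℕ) : ZMod N)) ↔ c (some 0) := by
    intro n
    induction n with
    | zero => simp
    | succ n ih =>
      rw [← ih, Nat.cast_succ]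
      exact (h1 _).symm
  have h5 : ∀ x : ZMod N, c (some x) ↔ c (some 0) := by
    intro x
    have h6 := h4 x.val
    rwa [ZMod.natCast_zmod_val] at h6
  have h6 : c none ↔ c (some 0) := by
    obtain ⟨x, hx⟩ : ∃ x : ZMod N, x + x = m ∨ x + x = m + 1 := by
      rcases Nat.even_or_odd' m.val with ⟨k, hk | hk⟩
      · refine ⟨k, Or.inl ?_⟩
        have h7 : ((m.val : ℕ) : ZMod N) = m := ZMod.natCast_zmod_val m
        rw [hk] at h7
        push_cast at h7
        linear_combination h7
      · refine ⟨k + 1, Or.inr ?_⟩
        have h7 : ((m.val : ℕ) : ZMod N) = m := ZMod.natCast_zmod_val m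
        rw [hk] at h7
        push_cast at h7
        linear_combination h7
    exact (h none (some x) (by simp) hx).trans (h5 x)
  have h7 : ∀ a, c a ↔ c (some 0) := by
    intro a
    cases a with
    | none => exact h6
    | some x => exact h5 x
  exact fun a b => (h7 a).trans (h7 b).symm

end

variable {V E : Type} [Fintype V] [DecidableEq V] [Fintype E] [DecidableEq E]

/-- If any two vertices are adjacent, there are `n - 1` spanning closed trails without parallel
edges and loops which cover one edge between any two vertices exactly twice. -/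
theorem exists_double (G : MGraph V E) (hadj : ∀ u v : V, u ≠ v → ∃ e, G.ends e = s(u, v))
    {N : ℕ} (hN : 2 ≤ N) (hV : Fintype.card V = N + 1) :
    ∃ Z : ZMod N → Finset E, (∀ m, Trail G (Z m)) ∧
      ∀ e, (Nat.card {m : ZMod N // e ∈ Z m} = 2) ∨ (Nat.card {m : ZMod N // e ∈ Z m} = 0) := by
  classical
  have : NeZero N := ⟨by omega⟩
  have hne : ∀ m : ZMod N, m ≠ m + 1 := by
    intro m h
    have : Fact (1 < N) := ⟨hN⟩
    have : (1 : ZMod N) = 0 := by linear_combination -h
    exact one_ne_zero this
  have φ : V ≃ Option (ZMod N) := Fintype.equivOfCardEq (by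
    rw [hV, Fintype.card_option, ZMod.card])
  have hadj' : ∀ z : Sym2 V, ¬ z.IsDiag → ∃ e, G.ends e = z := by
    intro z
    induction z using Sym2.ind with
    | _ u v =>
      intro h
      exact hadj u v (by simpa using h)
  choose ε hε using hadj'
  let Z : ZMod N → Finset E := fun m => univ.filter (fun e =>
    (∃ h : ¬ (G.ends e).IsDiag, ε (G.ends e) h = e) ∧
      ∃ u v, G.ends e = s(u, v) ∧ (sm (φ u) (φ v) = m ∨ sm (φ u) (φ v) = m + 1))
  have hZmem : ∀ m e, e ∈ Z m ↔ (∃ h : ¬ (G.ends e).IsDiag, ε (G.ends e) h = e) ∧
      ∃ u v, G.ends e = s(u, v) ∧ (sm (φ u) (φ v) = m ∨ sm (φ u) (φ v) = m + 1) := by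
    intro m e
    simp [Z]
  -- the edge chosen between two vertices
  have hch : ∀ m u v, u ≠ v → (sm (φ u) (φ v) = m ∨ sm (φ u) (φ v) = m + 1) →
      ∃ e ∈ Z m, G.ends e = s(u, v) := by
    intro m u v huv hs
    have hd : ¬ (s(u, v)).IsDiag := by simpa using huv
    refine ⟨ε s(u, v) hd, ?_, hε _ _⟩
    rw [hZmem]
    have h1 : G.ends (ε s(u, v) hd) = s(u, v) := hε _ _
    refine ⟨⟨by rw [h1]; exact hd, ?_⟩, u, v, h1, hs⟩
    congr 1
  have hval : ∀ m e u v, e ∈ Z m → G.ends e = s(u, v) →
      (sm (φ u) (φ v) = m ∨ sm (φ u) (φ v) = m + 1) := by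
    intro m e u v he h
    obtain ⟨_, u', v', h1, h2⟩ := (hZmem m e).1 he
    rw [h] at h1
    rcases Sym2.eq_iff.1 h1 with ⟨h3, h4⟩ | ⟨h3, h4⟩
    · rw [h3, h4]; exact h2
    · rw [h3, h4, sm_comm]; exact h2
  have huniq : ∀ m e f, e ∈ Z m → f ∈ Z m → G.ends e = G.ends f → e = f := by
    intro m e f he hf h
    obtain ⟨⟨h1, h2⟩, _⟩ := (hZmem m e).1 he
    obtain ⟨⟨h3, h4⟩, _⟩ := (hZmem m f).1 hf
    rw [← h2, ← h4]
    congr 1
  have hnd : ∀ m e, e ∈ Z m → ¬ (G.ends e).IsDiag := fun m e he => ((hZmem m e).1 he).1.1
  refine ⟨Z, fun m => ⟨?_, ?_⟩, ?_⟩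
  · -- degrees
    intro w
    unfold MGraph.deg
    have h1 : (Z m).filter (fun e => G.ends e = s(w, w)) = ∅ := by
      rw [Finset.filter_eq_empty_iff]
      intro e he h
      apply hnd m e he
      rw [h]
      simp
    rw [h1, Finset.card_empty, add_zero]
    have h2 : ((Z m).filter (fun e => w ∈ G.ends e)).card =
        (univ.filter (fun u : V => u ≠ w ∧
          (sm (φ u) (φ w) = m ∨ sm (φ u) (φ w) = m + 1))).card := by
      symm
      have hex : ∀ u ∈ univ.filter (fun u : V => u ≠ w ∧
          (sm (φ u) (φ w) = m ∨ sm (φ u) (φ w) = m + 1)), ∃ e ∈ Z m, G.ends e = s(u, w) := by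
        intro u hu
        rw [Finset.mem_filter] at hu
        exact hch m u w hu.2.1 hu.2.2
      choose g hg1 hg2 using hex
      refine Finset.card_bij g ?_ ?_ ?_
      · intro u hu
        rw [Finset.mem_filter]
        refine ⟨hg1 u hu, ?_⟩
        rw [hg2 u hu]
        simp
      · intro u hu u' hu' h
        have h3 := hg2 u hu
        rw [h, hg2 u' hu'] at h3
        rcases Sym2.eq_iff.1 h3 with ⟨h4, _⟩ | ⟨h4, h5⟩
        · exact h4.symm
        · rw [h4, ← h5]
      · intro e he
        rw [Finset.mem_filter] at he
        obtain ⟨u, hu⟩ := Sym2.mem_iff_exists.1 he.2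
        have hu' : G.ends e = s(u, w) := by rw [hu]; exact Sym2.eq_swap
        have huw : u ≠ w := by
          intro h
          apply hnd m e he.1
          rw [hu', h]
          simp
        have hu2 : u ∈ univ.filter (fun u : V => u ≠ w ∧
            (sm (φ u) (φ w) = m ∨ sm (φ u) (φ w) = m + 1)) := by
          rw [Finset.mem_filter]
          exact ⟨Finset.mem_univ _, huw, hval m e u w he.1 hu'⟩
        exact ⟨u, hu2, huniq m _ _ (hg1 u hu2) he.1 (by rw [hg2 u hu2, hu'])⟩
    rw [h2]
    have h3 : (univ.filter (fun u : V => u ≠ w ∧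
          (sm (φ u) (φ w) = m ∨ sm (φ u) (φ w) = m + 1))).card =
        (univ.filter (fun o : Option (ZMod N) =>
      o ≠ φ w ∧ (sm o (φ w) = m ∨ sm o (φ w) = m + 1))).card := by
      apply Finset.card_equiv φ
      intro u
      simp
    rw [h3]
    exact deg_opt hN m (φ w)
  · -- connectivity
    rintro X ⟨e, he⟩
    by_contra hcon
    push Not at hcon
    have h1 := conn_opt m (fun o => φ.symm o ∈ X) (by
      intro a b hab hs
      obtain ⟨f, hf, hf'⟩ := hch m (φ.symm a) (φ.symm b) (by simpa using hab) (by simpa using hs)
      have h2 := hcon f hf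
      unfold Leaves at h2
      rw [hf'] at h2
      simp only [Sym2.mem_iff, exists_eq_or_imp, exists_eq_left] at h2
      show φ.symm a ∈ X ↔ φ.symm b ∈ X
      tauto)
    obtain ⟨⟨x, _, hx⟩, ⟨y, _, hy⟩⟩ := he
    have h2 := h1 (φ x) (φ y)
    simp only [Equiv.symm_apply_apply] at h2
    exact hy (h2.1 hx)
  · intro e
    by_cases he : ∃ h : ¬ (G.ends e).IsDiag, ε (G.ends e) h = e
    · left
      obtain ⟨u, v, huv⟩ : ∃ u v, G.ends e = s(u, v) := by
        induction h : G.ends e using Sym2.ind with
        | _ x y => exact ⟨x, y, rfl⟩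
      have h1 : ∀ m, e ∈ Z m ↔ (m = sm (φ u) (φ v) ∨ m = sm (φ u) (φ v) - 1) := by
        intro m
        constructor
        · intro h
          rcases hval m e u v h huv with h2 | h2
          · left; exact h2.symm
          · right; rw [h2]; ring
        · intro h
          rw [hZmem]
          refine ⟨he, u, v, huv, ?_⟩
          rcases h with h | h
          · left; exact h.symm
          · right; rw [h]; ring
      rw [Nat.card_eq_fintype_card, Fintype.card_subtype]
      have h2 : univ.filter (fun m => e ∈ Z m) = {sm (φ u) (φ v), sm (φ u) (φ v) - 1} := by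
        ext m
        rw [Finset.mem_filter, h1, Finset.mem_insert, Finset.mem_singleton]
        simp
      rw [h2, Finset.card_pair]
      intro h
      apply hne (sm (φ u) (φ v) - 1)
      rw [sub_add_cancel]
      exact h.symm
    · right
      rw [Nat.card_eq_fintype_card, Fintype.card_subtype, Finset.card_eq_zero,
        Finset.filter_eq_empty_iff]
      intro m _ h
      exact he ((hZmem m e).1 h).1

/-- Complete graphs. -/
theorem complete (G : MGraph V E) (hadj : ∀ u v : V, u ≠ v → ∃ e, G.ends e = s(u, v))
    (p : E → ℕ) (hev : ∀ e, Even (p e)) (hr : ∀ e f, p e ≤ (Fintype.card V - 2) * p f) :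
    InIntCone G p := by
  classical
  rcases Nat.lt_or_ge (Fintype.card V) 3 with hc | hc
  · have h0 : Fintype.card V - 2 = 0 := by omega
    exact zero_cover G p (fun e => Nat.le_zero.1 (by simpa [h0] using hr e e))
  by_cases hE : Nonempty E
  · obtain ⟨f, hf⟩ := Finite.exists_min p
    obtain ⟨N, hN⟩ : ∃ N, Fintype.card V = N + 1 := ⟨Fintype.card V - 1, by omega⟩
    have hN2 : 2 ≤ N := by omega
    have : NeZero N := ⟨by omega⟩
    obtain ⟨Z, hZ, hcard⟩ := exists_double G hadj hN2 hN
    obtain ⟨k, hk⟩ := hev f
    have hm : ∀ e, mult (fun x : ZMod N × Fin k => Z x.1) e =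
        Nat.card {m : ZMod N // e ∈ Z m} * k := by
      intro e
      unfold mult
      rw [Nat.card_eq_fintype_card, Fintype.card_subtype, Finset.card_filter,
        Fintype.sum_prod_type, Finset.card_filter, Finset.sum_mul]
      apply Finset.sum_congr rfl
      intro m _
      by_cases h : e ∈ Z m <;> simp [h]
    have hcardI : Fintype.card (ZMod N × Fin k) = N * k := by
      rw [Fintype.card_prod, ZMod.card, Fintype.card_fin]
    have hNN : Fintype.card V - 2 + 1 = N := by omega
    have hmul : (Fintype.card V - 2) * p f + p f = 2 * (N * k) := by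
      calc (Fintype.card V - 2) * p f + p f = (Fintype.card V - 2 + 1) * p f := by ring
        _ = 2 * (N * k) := by rw [hNN, hk]; ring
    refine trails G (fun x : ZMod N × Fin k => Z x.1) (fun x => hZ x.1) p ?_ ?_ ?_
    · intro e
      rw [hm]
      have h4 := hf e
      rcases hcard e with h | h
      · rw [h]; omega
      · rw [h]; omega
    · intro e
      rw [hm, hcardI]
      have h4 := hr e f
      rcases hcard e with h | h
      · rw [h]; omega
      · rw [h]; omega
    · intro e
      rw [hm]
      rcases hcard e with h | h
      · rw [h]; exact (hev e).add (even_two_mul k)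
      · rw [h, zero_mul, add_zero]; exact hev e
  · exact zero_cover G p (fun e => absurd ⟨e⟩ hE)

end Pool.Agent.J4.H48.CC
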