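import Pool.Agent.W831.ECC.Soc
import Pool.Agent.H825R2.EW.Final

set_option autoImplicit false
set_option linter.unusedSectionVars false

/-!
Even weightings deep inside the cone of the circuits: the depth which is needed decreases with the
edge-connectivity of the graph.
-/

namespace Pool.Agent.J4.H48.CC

open Finset
open Pool.Agent.H126R2.CDC (MGraph)
open Pool.Agent.H126R2.NC (InIntCone)
open Pool.Agent.W831.ECC (RCone dev derand intCone_add intCone_comb)
open Pool.Agent.H825R2.EW (cut mem_cut cover_light)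

variable {V E : Type} [Fintype V] [DecidableEq V] [Fintype E] [DecidableEq E]

/-- rounding with an error which is local: at most `t` times the local sum plus `log (2N) / t` -/
lemma rounding_local {κ ι : Type} [Fintype κ] [DecidableEq ι] (inc : κ → ι → Prop)
    [∀ e i, Decidable (inc e i)] (θ : ι → ℝ) (h0 : ∀ i, 0 ≤ θ i) (h1 : ∀ i, θ i ≤ 1)
    (s : Finset ι) (hκ : 1 ≤ Fintype.card κ) (t : ℝ) (ht : 0 < t) (ht1 : t ≤ 1) :
    ∃ ε : ι → ℕ, (∀ i, ε i ≤ 1) ∧
      ∀ e, |dev inc θ ε s e| ≤ t * (∑ i ∈ s, if inc e i then θ i else 0) +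
        Real.log (2 * Fintype.card κ) / t := by
  set Q : κ → ℝ := fun e => ∑ i ∈ s, if inc e i then θ i else 0 with hQ
  obtain ⟨ε, hε1, hε2⟩ := derand inc θ h0 h1 t (by rw [abs_of_pos ht]; exact ht1) s
    (fun e => Real.exp (-(t ^ 2 * Q e))) (fun e => Real.exp (-(t ^ 2 * Q e)))
    (fun _ => Real.exp_nonneg _) (fun _ => Real.exp_nonneg _)
  refine ⟨ε, hε1, fun e => ?_⟩
  have hκ' : (1 : ℝ) ≤ Fintype.card κ := by exact_mod_cast hκ
  have h3 : ∑ e, (Real.exp (-(t ^ 2 * Q e)) + Real.exp (-(t ^ 2 * Q e))) *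
      Real.exp (t ^ 2 * Q e) = 2 * Fintype.card κ := by
    have h4 : ∀ e ∈ (univ : Finset κ), (Real.exp (-(t ^ 2 * Q e)) +
        Real.exp (-(t ^ 2 * Q e))) * Real.exp (t ^ 2 * Q e) = 2 := by
      intro e _
      rw [add_mul, ← Real.exp_add]
      simp
      norm_num
    rw [Finset.sum_congr rfl h4, Finset.sum_const, Finset.card_univ, nsmul_eq_mul]
    ring
  have h5 : ∀ e, Real.exp (-(t ^ 2 * Q e)) * Real.exp (t * dev inc θ ε s e) +
      Real.exp (-(t ^ 2 * Q e)) * Real.exp (-t * dev inc θ ε s e) ≤ 2 * Fintype.card κ := by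
    intro e
    rw [← h3]
    refine le_trans ?_ hε2
    exact Finset.single_le_sum (f := fun e => Real.exp (-(t ^ 2 * Q e)) *
      Real.exp (t * dev inc θ ε s e) + Real.exp (-(t ^ 2 * Q e)) *
      Real.exp (-t * dev inc θ ε s e)) (fun e _ => by positivity) (Finset.mem_univ e)
  have hpos : (0 : ℝ) < 2 * Fintype.card κ := by linarith
  have h6 : t * dev inc θ ε s e - t ^ 2 * Q e ≤ Real.log (2 * Fintype.card κ) := by
    rw [Real.le_log_iff_exp_le hpos, show t * dev inc θ ε s e - t ^ 2 * Q e =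
      -(t ^ 2 * Q e) + t * dev inc θ ε s e by ring, Real.exp_add]
    have h7 := h5 e
    have h8 : 0 ≤ Real.exp (-(t ^ 2 * Q e)) * Real.exp (-t * dev inc θ ε s e) := by positivity
    linarith
  have h7 : -t * dev inc θ ε s e - t ^ 2 * Q e ≤ Real.log (2 * Fintype.card κ) := by
    rw [Real.le_log_iff_exp_le hpos, show -t * dev inc θ ε s e - t ^ 2 * Q e =
      -(t ^ 2 * Q e) + -t * dev inc θ ε s e by ring, Real.exp_add]
    have h7 := h5 e
    have h8 : 0 ≤ Real.exp (-(t ^ 2 * Q e)) * Real.exp (t * dev inc θ ε s e) := by positivity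
    linarith
  have h8 : t * |dev inc θ ε s e| ≤ t ^ 2 * Q e + Real.log (2 * Fintype.card κ) := by
    rcases abs_cases (dev inc θ ε s e) with ⟨h, _⟩ | ⟨h, _⟩ <;> rw [h] <;> linarith
  have h9 : t * (t * Q e + Real.log (2 * Fintype.card κ) / t) =
      t ^ 2 * Q e + Real.log (2 * Fintype.card κ) := by
    field_simp
  exact le_of_mul_le_mul_left (h8.trans (le_of_eq h9.symm)) ht

/-- **Depth against connectivity.** -/
theorem deepZ (G : MGraph V E) (p : E → ℕ) (hev : ∀ e, Even (p e)) (y z : E → ℝ) (L : ℝ)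
    (hL2 : 56 * Real.log (2 * Fintype.card E) ≤ L) (hy : ∀ e, L ≤ y e)
    (hz : ∀ e, z e = y e + 16 * Real.log (2 * Fintype.card E) / L * p e)
    (hloc : ∀ e, ∃ W : Finset V, (∀ v ∈ G.ends e, v ∈ W) ∧
      ∀ X ⊆ W, X.Nonempty → X ≠ W → (∀ f ∈ cut G W X, z f ≤ 4 * z e) →
        13 * z e ≤ ∑ f ∈ cut G W X, z f)
    (hc : RCone G (fun e => (p e : ℝ) - y e)) : InIntCone G p := by
  classical
  by_cases hE : IsEmpty E
  · exact ⟨0, by simp, fun e => (hE.false e).elim⟩
  rw [not_isEmpty_iff] at hE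
  obtain ⟨e0⟩ := hE
  have hcard : 1 ≤ Fintype.card E := Fintype.card_pos_iff.2 ⟨e0⟩
  set ℓ := Real.log (2 * Fintype.card E) with hℓ
  have hℓ1 : 0.69 ≤ ℓ := by
    have h1 : Real.log 2 ≤ ℓ := by
      apply Real.log_le_log (by norm_num)
      have : (1 : ℝ) ≤ Fintype.card E := by exact_mod_cast hcard
      linarith
    have := Real.log_two_gt_d9
    linarith
  have hL0 : 38 ≤ L := by linarith
  have hLpos : 0 < L := by linarith
  -- the parameter
  set η : ℝ := 16 * ℓ / L with hη
  have hηL : η * L = 16 * ℓ := by rw [hη]; field_simp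
  have hη0 : 0 < η := div_pos (by linarith) hLpos
  have hη1 : η ≤ 2 / 7 := by
    rw [hη, div_le_div_iff₀ hLpos (by norm_num)]
    linarith
  have hc' := hc
  obtain ⟨w, hw0, hw1, hw2⟩ := hc'
  set u : Finset E → ℝ := fun C => (1 - η) * w C / 2 with hu
  have hu0 : ∀ C, 0 ≤ u C := fun C =>
    div_nonneg (mul_nonneg (by linarith) (hw0 C)) (by norm_num)
  set θ : Finset E → ℝ := fun C => Int.fract (u C) with hθ
  set s : Finset (Finset E) := univ.filter fun C => G.IsCircuit C with hs
  have hsum : ∀ e, ∑ C ∈ s, (if e ∈ C then u C else 0) = (1 - η) * ((p e : ℝ) - y e) / 2 := by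
    intro e
    have hw3 : (p e : ℝ) - y e = ∑ C : Finset E, w C * (if e ∈ C then 1 else 0) := hw2 e
    rw [hw3, Finset.mul_sum, Finset.sum_div]
    rw [← Finset.sum_subset (Finset.subset_univ s)]
    · apply Finset.sum_congr rfl
      intro C _
      simp only [hu]
      split_ifs <;> ring
    · intro C _ hC
      have : ¬ G.IsCircuit C := fun h => hC (Finset.mem_filter.2 ⟨Finset.mem_univ _, h⟩)
      rw [hw1 C this]
      ring
  have hθle : ∀ C, θ C ≤ u C := by
    intro C
    simp only [hθ]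
    have h2 : (0 : ℤ) ≤ ⌊u C⌋ := Int.floor_nonneg.2 (hu0 C)
    have h3 : (0 : ℝ) ≤ (⌊u C⌋ : ℝ) := by exact_mod_cast h2
    have h4 := Int.floor_add_fract (u C)
    linarith
  obtain ⟨ε, hε1, hε2⟩ := rounding_local (κ := E) (fun e C => e ∈ C) θ
    (fun C => Int.fract_nonneg _) (fun C => (Int.fract_lt_one _).le) s hcard (η / 2)
    (by linarith) (by linarith)
  rw [← hℓ] at hε2
  have hQ : ∀ e, ∑ C ∈ s, (if e ∈ C then θ C else 0) ≤ (p e : ℝ) / 2 := by
    intro e
    calc ∑ C ∈ s, (if e ∈ C then θ C else 0) ≤ ∑ C ∈ s, (if e ∈ C then u C else 0) := by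
          apply Finset.sum_le_sum
          intro C _
          split_ifs
          · exact hθle C
          · exact le_rfl
      _ = (1 - η) * ((p e : ℝ) - y e) / 2 := hsum e
      _ ≤ (p e : ℝ) / 2 := by
          have h1 := hc.nonneg e
          have h2 : (1 - η) * ((p e : ℝ) - y e) ≤ 1 * ((p e : ℝ) - y e) :=
            mul_le_mul_of_nonneg_right (by linarith) h1
          have h3 := hy e
          linarith
  have hdev : ∀ e, |dev (fun e C => e ∈ C) θ ε s e| ≤ η / 2 * ((p e : ℝ) / 2) + L / 8 := by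
    intro e
    have h1 := hε2 e
    have h2 : η / 2 * (∑ C ∈ s, (if e ∈ C then θ C else 0)) ≤ η / 2 * ((p e : ℝ) / 2) :=
      mul_le_mul_of_nonneg_left (hQ e) (by linarith)
    have h3 : ℓ / (η / 2) = L / 8 := by
      rw [div_eq_div_iff (by linarith [hη0]) (by norm_num)]
      linarith
    rw [h3] at h1
    linarith
  -- the integral part
  set n : Finset E → ℕ := fun C => ⌊u C⌋₊ + ε C with hn
  set S : E → ℕ := fun e => ∑ C ∈ s, (2 * n C) * (if e ∈ C then 1 else 0) with hSdef
  have hSreal : ∀ e, (S e : ℝ) = (1 - η) * ((p e : ℝ) - y e) +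
      2 * dev (fun e C => e ∈ C) θ ε s e := by
    intro e
    have h1 := hsum e
    have h2 : (1 - η) * ((p e : ℝ) - y e) = 2 * ∑ C ∈ s, (if e ∈ C then u C else 0) := by
      rw [h1]; ring
    rw [h2]
    simp only [hSdef, dev, Nat.cast_sum, Finset.mul_sum, ← Finset.sum_add_distrib]
    apply Finset.sum_congr rfl
    intro C _
    by_cases he : e ∈ C
    · simp only [he, if_true, hn, hθ]
      push_cast
      have h3 : ((⌊u C⌋₊ : ℕ) : ℝ) = (⌊u C⌋ : ℝ) :=
        natCast_floor_eq_intCast_floor (hu0 C)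
      rw [h3]
      have h4 := Int.floor_add_fract (u C)
      linarith
    · simp [he]
  have hηp0 : ∀ e, 0 ≤ η * (p e : ℝ) := fun e => mul_nonneg hη0.le (Nat.cast_nonneg _)
  have hηy : ∀ e, η * y e ≤ 2 / 7 * y e := fun e =>
    mul_le_mul_of_nonneg_right hη1 (by linarith [hy e])
  have hηy0 : ∀ e, 0 ≤ η * y e := fun e => mul_nonneg hη0.le (by linarith [hy e])
  have hz' : ∀ e, z e = y e + η * p e := fun e => hz e
  have hz0 : ∀ e, 0 < z e := by
    intro e
    rw [hz']
    linarith [hy e, hηp0 e]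
  have hrlow : ∀ e, 13 / 28 * z e ≤ (p e : ℝ) - S e := by
    intro e
    rw [hSreal e, hz' e]
    have h2 := hdev e
    have h3 := le_abs_self (dev (fun e C => e ∈ C) θ ε s e)
    have h4 : (1 - η) * ((p e : ℝ) - y e) = p e - η * p e - y e + η * y e := by ring
    have h6 := hηy e
    have h7 := hy e
    have h8 := hηp0 e
    rw [h4]
    linarith
  have hle : ∀ e, S e ≤ p e := by
    intro e
    have h1 := hrlow e
    have h3 := hz0 e
    have h2 : (S e : ℝ) ≤ p e := by linarith
    exact_mod_cast h2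
  set r : E → ℕ := fun e => p e - S e with hr
  have hrreal : ∀ e, (r e : ℝ) = (p e : ℝ) - S e := by
    intro e
    simp only [hr]
    rw [Nat.cast_sub (hle e)]
  have hrhi : ∀ e, (r e : ℝ) ≤ 3 / 2 * z e := by
    intro e
    rw [hrreal e, hSreal e, hz' e]
    have h2 := hdev e
    have h3 := neg_abs_le (dev (fun e C => e ∈ C) θ ε s e)
    have h4 : (1 - η) * ((p e : ℝ) - y e) = p e - η * p e - y e + η * y e := by ring
    have h6 := hηy0 e
    have h7 := hy e
    have h8 := hηp0 e
    rw [h4]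
    linarith
  have hSev : ∀ e, Even (S e) := by
    intro e
    simp only [hSdef]
    rw [show (∑ C ∈ s, (2 * n C) * (if e ∈ C then 1 else 0)) =
      2 * ∑ C ∈ s, n C * (if e ∈ C then 1 else 0) by
        rw [Finset.mul_sum]; apply Finset.sum_congr rfl; intro C _; ring]
    exact even_two_mul _
  have hrev : ∀ e, Even (r e) := by
    intro e
    have h1 := hle e
    have h2 := hSev e
    have h3 := hev e
    simp only [hr]
    rw [Nat.even_iff] at *
    omega
  -- the residue
  have hres : InIntCone G r := by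
    apply cover_light G r hrev
    intro e
    obtain ⟨W, hW, hX⟩ := hloc e
    refine ⟨W, hW, Or.inl fun X hX1 hX2 hX3 hle' => ?_⟩
    have h1 : 13 * z e ≤ ∑ f ∈ cut G W X, z f := by
      refine hX X hX1 hX2 hX3 fun f hf => ?_
      have h2 : (r f : ℝ) ≤ r e := by exact_mod_cast hle' f hf
      have h3 := hrlow f
      rw [← hrreal f] at h3
      have h4 := hrhi e
      have h5 := hz0 e
      linarith
    have h2 : (4 * r e : ℝ) ≤ ∑ f ∈ cut G W X, (r f : ℝ) := by
      have h3 : ∑ f ∈ cut G W X, 13 / 28 * z f ≤ ∑ f ∈ cut G W X, (r f : ℝ) := by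
        apply Finset.sum_le_sum
        intro f _
        rw [hrreal f]
        exact hrlow f
      rw [← Finset.mul_sum] at h3
      have h4 := hrhi e
      have h5 := hz0 e
      linarith
    exact_mod_cast h2
  have h1 := intCone_add hres (intCone_comb G s
    (fun C hC => (Finset.mem_filter.1 hC).2) (fun C => 2 * n C))
  convert h1 using 1
  ext e
  have := hle e
  simp only [hr, hSdef] at this ⊢
  omega

end Pool.Agent.J4.H48.CC
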