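import Pool.Agent.J4.H48.CC.Depth

set_option autoImplicit false
set_option linter.unusedSectionVars false

/-!
Even weightings deep inside the cone of the circuits, with the cone described by cuts.
-/

namespace Pool.Agent.J4.H48.CC

open Finset
open Pool.Agent.H126R2.CDC (MGraph)
open Pool.Agent.H126R2.NC (InIntCone)
open Pool.Agent.W831.ECC (RCone rcone_of_cut)
open Pool.Agent.W831.ECC.Gad (CutC Lv)
open Pool.Agent.H825R2.EW (cut mem_cut)

variable {V E : Type} [Fintype V] [DecidableEq V] [Fintype E] [DecidableEq E]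

lemma rcone_of_cuts (G : MGraph V E) (x : E → ℝ) (h0 : ∀ e, 0 ≤ x e)
    (hc : ∀ X : Finset V, ∀ e ∈ cut G univ X, x e ≤ ∑ f ∈ (cut G univ X).erase e, x f) :
    RCone G x := by
  classical
  obtain ⟨v, hv⟩ := G.exists_halves
  apply rcone_of_cut G v hv x h0
  intro S e he
  have hm : ∀ f, f ∈ cut G univ S ↔ Lv v S f := by
    intro f
    rw [mem_cut G v hv]
    simp [Lv]
  refine (hc S e ((hm e).2 he)).trans (le_of_eq ?_)
  rw [← Finset.sum_filter]
  apply Finset.sum_congr _ (fun _ _ => rfl)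
  ext f
  rw [Finset.mem_erase, hm, Finset.mem_filter]
  simp

/-- depth `L`, local connectivity -/
theorem deepL (G : MGraph V E) (p : E → ℕ) (hev : ∀ e, Even (p e)) (L : ℝ)
    (hL2 : 56 * Real.log (2 * Fintype.card E) ≤ L)
    (hloc : ∀ e, ∃ W : Finset V, (∀ v ∈ G.ends e, v ∈ W) ∧
      ∀ X ⊆ W, X.Nonempty → X ≠ W →
        13 + 208 * Real.log (2 * Fintype.card E) * p e / L ^ 2 ≤ (cut G W X).card)
    (hc : RCone G (fun e => (p e : ℝ) - L)) : InIntCone G p := by
  classical
  by_cases hE : IsEmpty E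
  · exact ⟨0, by simp, fun e => (hE.false e).elim⟩
  rw [not_isEmpty_iff] at hE
  obtain ⟨e0⟩ := hE
  have hcard : 1 ≤ Fintype.card E := Fintype.card_pos_iff.2 ⟨e0⟩
  have hℓ1 : 0.69 ≤ Real.log (2 * Fintype.card E) := by
    have h1 : Real.log 2 ≤ Real.log (2 * Fintype.card E) := by
      apply Real.log_le_log (by norm_num)
      have : (1 : ℝ) ≤ Fintype.card E := by exact_mod_cast hcard
      linarith
    have := Real.log_two_gt_d9
    linarith
  have hLpos : 0 < L := by linarith
  refine deepZ G p hev (fun _ => L) (fun e => L + 16 * Real.log (2 * Fintype.card E) / L * p e) L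
    hL2 (fun _ => le_rfl) (fun _ => rfl) ?_ hc
  intro e
  obtain ⟨W, hW, hX⟩ := hloc e
  refine ⟨W, hW, fun X h1 h2 h3 _ => ?_⟩
  have h4 := hX X h1 h2 h3
  have h5 : ∑ f ∈ cut G W X, (L + 16 * Real.log (2 * Fintype.card E) / L * (p f : ℝ)) ≥
      (cut G W X).card * L := by
    rw [← nsmul_eq_mul]
    apply Finset.card_nsmul_le_sum
    intro f _
    have h6 : 0 ≤ 16 * Real.log (2 * Fintype.card E) / L * (p f : ℝ) :=
      mul_nonneg (div_nonneg (by linarith) hLpos.le) (Nat.cast_nonneg _)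
    linarith
  refine le_trans ?_ h5
  have h6 : (13 + 208 * Real.log (2 * Fintype.card E) * p e / L ^ 2) * L ≤
      (cut G W X).card * L := mul_le_mul_of_nonneg_right h4 hLpos.le
  refine le_trans (le_of_eq ?_) h6
  field_simp
  ring

/-- relative version -/
theorem deepRel (G : MGraph V E) (p : E → ℕ) (hev : ∀ e, Even (p e)) (δ : ℝ) (hδ0 : 0 < δ)
    (hδ1 : δ ≤ 1) (K m M : ℕ) (hK : 26 ≤ K)
    (hcut : ∀ X : Finset V, X.Nonempty → X ≠ univ → K ≤ (cut G univ X).card)
    (hm : ∀ e, m ≤ p e) (hM : ∀ e, p e ≤ M)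
    (h1 : 112 * Real.log (2 * Fintype.card E) ≤ δ * m)
    (h2 : 1664 * Real.log (2 * Fintype.card E) * M ≤ K * (δ * m) ^ 2)
    (hc : ∀ X : Finset V, ∀ e ∈ cut G univ X,
      (1 + δ) * p e ≤ ∑ f ∈ (cut G univ X).erase e, (p f : ℝ)) : InIntCone G p := by
  classical
  by_cases hE : IsEmpty E
  · exact ⟨0, by simp, fun e => (hE.false e).elim⟩
  rw [not_isEmpty_iff] at hE
  obtain ⟨e0⟩ := hE
  have hcard : 1 ≤ Fintype.card E := Fintype.card_pos_iff.2 ⟨e0⟩
  have hℓ1 : 0.69 ≤ Real.log (2 * Fintype.card E) := by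
    have h1 : Real.log 2 ≤ Real.log (2 * Fintype.card E) := by
      apply Real.log_le_log (by norm_num)
      have : (1 : ℝ) ≤ Fintype.card E := by exact_mod_cast hcard
      linarith
    have := Real.log_two_gt_d9
    linarith
  set ℓ := Real.log (2 * Fintype.card E) with hℓ
  have hδm : 0 < δ * m := by linarith
  set L : ℝ := δ * m / (1 + δ) with hL
  have hL1 : δ * m / 2 ≤ L := by
    rw [hL]
    exact div_le_div_of_nonneg_left hδm.le (by linarith) (by linarith)
  have hLpos : 0 < L := by linarith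
  have hLm : L * (1 + δ) = δ * m := by rw [hL]; field_simp
  apply deepL G p hev L (by linarith)
  · intro e
    refine ⟨univ, fun v _ => Finset.mem_univ v, fun X _ hX1 hX2 => ?_⟩
    have h3 : (K : ℝ) ≤ (cut G univ X).card := by exact_mod_cast hcut X hX1 hX2
    refine le_trans ?_ h3
    have hK' : (26 : ℝ) ≤ K := by exact_mod_cast hK
    have h4 : 208 * ℓ * p e / L ^ 2 ≤ K / 2 := by
      rw [div_le_div_iff₀ (by positivity) (by norm_num)]
      have h5 : (δ * m / 2) ^ 2 ≤ L ^ 2 := pow_le_pow_left₀ (by positivity) hL1 2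
      have h6 : 208 * ℓ * p e ≤ 208 * ℓ * M := by
        apply mul_le_mul_of_nonneg_left _ (by linarith)
        exact_mod_cast hM e
      have h7 : K * (δ * m / 2) ^ 2 ≤ K * L ^ 2 := mul_le_mul_of_nonneg_left h5 (by linarith)
      have h8 : K * (δ * m / 2) ^ 2 = K * (δ * m) ^ 2 / 4 := by ring
      linarith
    linarith
  · apply rcone_of_cuts
    · intro e
      have h3 : (m : ℝ) ≤ p e := by exact_mod_cast hm e
      have h4 : L ≤ m := by
        rw [hL, div_le_iff₀ (by linarith)]
        have : (0 : ℝ) ≤ m := Nat.cast_nonneg m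
        linarith
      linarith
    · intro X e he
      have h3 := hc X e he
      set B := (cut G univ X).erase e with hB
      rw [Finset.sum_sub_distrib, Finset.sum_const, nsmul_eq_mul]
      have h4 : (B.card : ℝ) * m ≤ ∑ f ∈ B, (p f : ℝ) := by
        rw [← nsmul_eq_mul]
        apply Finset.card_nsmul_le_sum
        intro f _
        exact_mod_cast hm f
      have h5 : (0 : ℝ) ≤ B.card := Nat.cast_nonneg _
      -- combine
      have h6 : (1 + δ) * ((p e : ℝ) - L) ≤ (1 + δ) * (∑ f ∈ B, (p f : ℝ) - B.card * L) := by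
        have h7 : (1 + δ) * (B.card * L) = δ * (B.card * m) := by
          calc (1 + δ) * (B.card * L) = B.card * (L * (1 + δ)) := by ring
            _ = δ * (B.card * m) := by rw [hLm]; ring
        have h8 : (1 + δ) * ((p e : ℝ) - L) = (1 + δ) * p e - L * (1 + δ) := by ring
        have h9 : δ * (B.card * m) ≤ δ * ∑ f ∈ B, (p f : ℝ) :=
          mul_le_mul_of_nonneg_left h4 hδ0.le
        rw [h8, hLm, mul_sub, h7]
        linarith
      exact le_of_mul_le_mul_left h6 (by linarith)

end Pool.Agent.J4.H48.CC
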